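import Pool.Agent.H1.SG.Sel
import Pool.Agent.H75.AP.MertensB

/-!
# [H1 SG BD] Selberg's sum over rough numbers: lower and upper bound

`Ro y m`: all prime factors of `m` are `≥ y`.
* `Ss_lower`: `log (R+1) ∏_{p < y} (1 - 1/p) ≤ Ss (Ro y) R`.
* `Ss_upper`: `Ss (Ro y) R ≤ exp(1 + ∑_{y ≤ p ≤ R} 1/p)`.
-/

set_option autoImplicit false

namespace Pool.Agent.H1.SG

open Finset Filter

/-- all prime factors are `≥ y` -/
def Ro (y : ℝ) (m : ℕ) : Prop := ∀ p : ℕ, p.Prime → p ∣ m → y ≤ (p : ℝ)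

theorem her_Ro (y : ℝ) : Her (Ro y) where
  one := fun _ hp h => absurd (Nat.dvd_one.1 h) hp.one_lt.ne'
  dvd := fun _ _ hab hb p hp hpa => hb p hp (hpa.trans hab)

theorem lcm_Ro (y : ℝ) (a b : ℕ) (ha : Ro y a) (hb : Ro y b) : Ro y (a.lcm b) := by
  intro p hp hpd
  rcases (Nat.Prime.dvd_mul hp).1 (hpd.trans (Nat.lcm_dvd_mul a b)) with h | h
  · exact ha p hp h
  · exact hb p hp h

private noncomputable def invHom : ℕ →* ℝ where
  toFun n := ((n : ℝ))⁻¹
  map_one' := by simp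
  map_mul' a b := by simp [mul_comm]

private theorem slog_euler (s : Finset ℕ) (hs : ∀ p ∈ s, p.Prime) (T : Finset ℕ)
    (hT : ∀ m ∈ T, m ∈ Nat.factoredNumbers s) :
    ∑ m ∈ T, ((m : ℝ))⁻¹ ≤ ∏ p ∈ s, (1 - ((p : ℝ))⁻¹)⁻¹ := by
  classical
  have h := EulerProduct.summable_and_hasSum_factoredNumbers_prod_filter_prime_geometric
    (f := invHom) (fun {p} hp => by
      change ‖((p : ℝ))⁻¹‖ < 1
      rw [norm_inv, Real.norm_natCast]
      exact inv_lt_one_of_one_lt₀ (by exact_mod_cast hp.one_lt)) s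
  have hf : s.filter (fun p => p.Prime) = s := Finset.filter_true_of_mem hs
  rw [hf] at h
  have h2 : HasSum (fun m : Nat.factoredNumbers s ↦ (((m : ℕ) : ℝ))⁻¹)
      (∏ p ∈ s, (1 - ((p : ℝ))⁻¹)⁻¹) := h.2
  have h3 := sum_le_hasSum (T.attach.map ⟨fun m => (⟨m.1, hT m.1 m.2⟩ : Nat.factoredNumbers s),
    fun a b hab => by
      apply Subtype.ext
      simpa using hab⟩) (fun i _ => by positivity) h2
  rw [Finset.sum_map] at h3
  simp only [Function.Embedding.coeFn_mk] at h3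
  rwa [Finset.sum_attach T (fun m => ((m : ℝ))⁻¹)] at h3

private theorem slog_tot (l : ℕ) :
    ((l : ℝ))⁻¹ * ∏ p ∈ l.primeFactors, (1 - ((p : ℝ))⁻¹)⁻¹ = 1 / (Nat.totient l : ℝ) := by
  have h := Nat.totient_eq_mul_prod_factors l
  have h' : (Nat.totient l : ℝ) = l * ∏ p ∈ l.primeFactors, (1 - ((p : ℝ))⁻¹) := by
    have := congrArg (fun x : ℚ => (x : ℝ)) h
    simpa using this
  rw [h', Finset.prod_inv_distrib, one_div, mul_inv]

/-- the numbers `m` with `l ∣ m`, all prime factors in `l` or in `s` -/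
private theorem rad_sum (l : ℕ) (hl : l ≠ 0) (s : Finset ℕ) (hs : ∀ p ∈ s, p.Prime)
    (hd : Disjoint l.primeFactors s) (T : Finset ℕ)
    (hT : ∀ m ∈ T, m ≠ 0 ∧ l ∣ m ∧ m.primeFactors ⊆ l.primeFactors ∪ s) :
    ∑ m ∈ T, 1 / (m : ℝ) ≤ 1 / (Nat.totient l : ℝ) * ∏ p ∈ s, (1 - ((p : ℝ))⁻¹)⁻¹ := by
  classical
  have hlpos : 0 < l := Nat.pos_of_ne_zero hl
  have hinj : Set.InjOn (fun m : ℕ => m / l) (T : Set ℕ) := by
    intro a ha b hb hab
    obtain ⟨c, rfl⟩ := (hT a ha).2.1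
    obtain ⟨d, rfl⟩ := (hT b hb).2.1
    simp only [Nat.mul_div_cancel_left _ hlpos] at hab
    rw [hab]
  have hsum : ∑ m ∈ T, 1 / (m : ℝ) =
      ((l : ℝ))⁻¹ * ∑ m ∈ T.image (fun m : ℕ => m / l), ((m : ℝ))⁻¹ := by
    rw [Finset.sum_image hinj, Finset.mul_sum]
    apply Finset.sum_congr rfl
    intro m hm
    obtain ⟨c, hc⟩ := (hT m hm).2.1
    rw [hc, Nat.mul_div_cancel_left _ hlpos]
    push_cast
    rw [one_div, mul_inv]
  rw [hsum, ← slog_tot l, mul_assoc, ← Finset.prod_union hd]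
  apply mul_le_mul_of_nonneg_left _ (by positivity)
  apply slog_euler
  · intro p hp
    rcases mem_union.1 hp with h | h
    · exact Nat.prime_of_mem_primeFactors h
    · exact hs p h
  · intro m hm
    rw [Finset.mem_image] at hm
    obtain ⟨k, hk, rfl⟩ := hm
    obtain ⟨hk0, ⟨c, hc⟩, hkp⟩ := hT k hk
    rw [hc, Nat.mul_div_cancel_left _ hlpos]
    have hc0 : c ≠ 0 := by
      rintro rfl
      exact hk0 (by rw [hc, mul_zero])
    apply Nat.mem_factoredNumbers_of_primeFactors_subset hc0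
    refine subset_trans ?_ hkp
    rw [hc]
    exact Nat.primeFactors_mono (Dvd.intro_left l rfl) (by rw [← hc]; exact hk0)

/-- lower bound of Selberg's sum -/
theorem Ss_lower (y : ℝ) (R : ℕ) :
    Real.log ((R : ℝ) + 1) * ∏ p ∈ (range ⌈y⌉₊).filter Nat.Prime, (1 - 1 / (p : ℝ)) ≤
      Ss (Ro y) R := by
  classical
  set s : Finset ℕ := (range ⌈y⌉₊).filter Nat.Prime with hs
  have hsp : ∀ p ∈ s, p.Prime := fun p hp => (mem_filter.1 hp).2
  have hmem : ∀ p : ℕ, p ∈ s ↔ (p : ℝ) < y ∧ p.Prime := by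
    intro p
    rw [hs, mem_filter, mem_range, Nat.lt_ceil]
  have hpos : ∀ p ∈ s, 0 < 1 - 1 / (p : ℝ) := by
    intro p hp
    have h1 : (1 : ℝ) < p := by exact_mod_cast (hsp p hp).one_lt
    rw [sub_pos, div_lt_one (by linarith)]
    exact h1
  have hEpos : 0 < ∏ p ∈ s, (1 - 1 / (p : ℝ)) := Finset.prod_pos hpos
  have hE : ∏ p ∈ s, (1 - ((p : ℝ))⁻¹)⁻¹ = (∏ p ∈ s, (1 - 1 / (p : ℝ)))⁻¹ := by
    rw [← Finset.prod_inv_distrib]
    refine Finset.prod_congr rfl fun p _ => ?_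
    rw [one_div]
  have h1 : Real.log ((R : ℝ) + 1) ≤ ∑ m ∈ Icc 1 R, 1 / (m : ℝ) := by
    have h := log_add_one_le_harmonic R
    have h3 : ((harmonic R : ℚ) : ℝ) = ∑ m ∈ Icc 1 R, 1 / (m : ℝ) := by
      rw [harmonic_eq_sum_Icc]
      push_cast
      simp [one_div]
    rw [← h3]
    push_cast at h
    exact h
  have h2 : ∑ m ∈ Icc 1 R, 1 / (m : ℝ) ≤ Ss (Ro y) R * (∏ p ∈ s, (1 - 1 / (p : ℝ)))⁻¹ := by
    unfold Ss
    set f : ℕ → ℕ := fun m => ∏ p ∈ m.primeFactors.filter (fun p => p ∉ s), p with hf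
    have hfdvd : ∀ m : ℕ, f m ∣ m := fun m =>
      (Finset.prod_dvd_prod_of_subset _ _ _ (filter_subset _ _)).trans
        (Nat.prod_primeFactors_dvd m)
    have hfpos : ∀ m : ℕ, 0 < f m := fun m =>
      Finset.prod_pos fun p hp => Nat.pos_of_mem_primeFactors (mem_filter.1 hp).1
    have hmaps : ∀ m ∈ Icc 1 R, f m ∈ Icc 1 R := by
      intro m hm
      rw [Finset.mem_Icc] at hm ⊢
      exact ⟨hfpos m, (Nat.le_of_dvd (by omega) (hfdvd m)).trans hm.2⟩
    rw [← Finset.sum_fiberwise_of_maps_to hmaps, Finset.sum_mul]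
    apply Finset.sum_le_sum
    intro l hl
    rw [Finset.mem_Icc] at hl
    unfold gs
    by_cases hsq : Squarefree l ∧ Ro y l
    · rw [if_pos hsq, ← hE]
      refine rad_sum l (by omega) s hsp ?_ _ ?_
      · rw [Finset.disjoint_left]
        intro p hp hps
        have h5 := hsq.2 p (Nat.prime_of_mem_primeFactors hp) (Nat.dvd_of_mem_primeFactors hp)
        exact absurd ((hmem p).1 hps).1 (not_lt.2 h5)
      · intro m hm
        rw [Finset.mem_filter, Finset.mem_Icc] at hm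
        refine ⟨by omega, hm.2 ▸ hfdvd m, ?_⟩
        intro p hp
        rw [mem_union]
        by_cases hps : p ∈ s
        · exact Or.inr hps
        · left
          rw [Nat.mem_primeFactors]
          refine ⟨Nat.prime_of_mem_primeFactors hp, ?_, by omega⟩
          rw [← hm.2]
          exact Finset.dvd_prod_of_mem (fun p => p) (mem_filter.2 ⟨hp, hps⟩)
    · rw [if_neg hsq, zero_mul]
      apply le_of_eq
      apply Finset.sum_eq_zero
      intro m hm
      exfalso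
      rw [Finset.mem_filter] at hm
      apply hsq
      rw [← hm.2]
      constructor
      · refine Finset.squarefree_prod_of_pairwise_isCoprime (fun p hp q hq hpq => ?_)
          fun p hp => (Nat.prime_of_mem_primeFactors (mem_filter.1 hp).1).squarefree
        change IsRelPrime p q
        rw [← Nat.coprime_iff_isRelPrime]
        exact (Nat.coprime_primes (Nat.prime_of_mem_primeFactors (mem_filter.1 hp).1)
          (Nat.prime_of_mem_primeFactors (mem_filter.1 hq).1)).mpr hpq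
      · intro p hp hpd
        rw [Prime.dvd_finsetProd_iff hp.prime] at hpd
        obtain ⟨q, hq, hpq⟩ := hpd
        rw [mem_filter] at hq
        have h5 : p = q := (Nat.prime_dvd_prime_iff_eq hp (Nat.prime_of_mem_primeFactors hq.1)).1 hpq
        by_contra h6
        push Not at h6
        apply hq.2
        rw [hmem, ← h5]
        exact ⟨h6, hp⟩
  have h3 := h1.trans h2
  calc Real.log ((R : ℝ) + 1) * ∏ p ∈ s, (1 - 1 / (p : ℝ))
      ≤ Ss (Ro y) R * (∏ p ∈ s, (1 - 1 / (p : ℝ)))⁻¹ * ∏ p ∈ s, (1 - 1 / (p : ℝ)) :=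
        mul_le_mul_of_nonneg_right h3 hEpos.le
    _ = Ss (Ro y) R := by
        rw [mul_assoc, inv_mul_cancel₀ hEpos.ne', mul_one]

private theorem tele (R : ℕ) : ∑ n ∈ Icc 2 R, 1 / ((n : ℝ) * ((n : ℝ) - 1)) ≤ 1 := by
  have h : ∀ R : ℕ, 1 ≤ R → ∑ n ∈ Icc 2 R, 1 / ((n : ℝ) * ((n : ℝ) - 1)) = 1 - 1 / (R : ℝ) := by
    intro R hR
    induction R, hR using Nat.le_induction with
    | base => simp
    | succ k hk ih =>
      rw [Finset.sum_Icc_succ_top (by omega), ih]
      have h1 : (k : ℝ) ≠ 0 := by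
        have : k ≠ 0 := by omega
        exact_mod_cast this
      have h2 : (k : ℝ) + 1 ≠ 0 := by positivity
      push_cast
      rw [add_sub_cancel_right]
      field_simp
      ring
  rcases Nat.eq_zero_or_pos R with h0 | h0
  · rw [h0]
    simp
  · rw [h R h0]
    have : 0 ≤ 1 / (R : ℝ) := by positivity
    linarith

/-- upper bound of Selberg's sum -/
theorem Ss_upper (y : ℝ) (R : ℕ) :
    Ss (Ro y) R ≤ Real.exp (1 + ∑ p ∈ (Icc 1 R).filter (fun p : ℕ => p.Prime ∧ y ≤ (p : ℝ)),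
      1 / (p : ℝ)) := by
  classical
  set S : Finset ℕ := (Icc 1 R).filter (fun p : ℕ => p.Prime ∧ y ≤ (p : ℝ)) with hS
  have hSp : ∀ p ∈ S, p.Prime := fun p hp => (mem_filter.1 hp).2.1
  have h1 : Ss (Ro y) R ≤ ∑ A ∈ S.powerset, ∏ p ∈ A, 1 / ((p : ℝ) - 1) := by
    unfold Ss
    have e1 : ∑ m ∈ Icc 1 R, gs (Ro y) m =
        ∑ m ∈ (Icc 1 R).filter (fun m => Squarefree m ∧ Ro y m), gs (Ro y) m := by
      rw [Finset.sum_filter]
      refine Finset.sum_congr rfl fun m _ => ?_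
      unfold gs
      split_ifs <;> rfl
    rw [e1]
    have e2 : ∀ m ∈ (Icc 1 R).filter (fun m => Squarefree m ∧ Ro y m),
        gs (Ro y) m = ∏ p ∈ m.primeFactors, 1 / ((p : ℝ) - 1) := by
      intro m hm
      rw [mem_filter, mem_Icc] at hm
      unfold gs
      rw [if_pos hm.2]
      have h2 := Nat.totient_eq_div_primeFactors_mul m
      rw [Nat.prod_primeFactors_of_squarefree hm.2.1, Nat.div_self (by omega), one_mul] at h2
      rw [h2, Nat.cast_prod]
      simp only [one_div]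
      rw [Finset.prod_inv_distrib]
      congr 1
      refine Finset.prod_congr rfl fun p hp => ?_
      rw [Nat.cast_sub (Nat.prime_of_mem_primeFactors hp).one_le, Nat.cast_one]
    rw [Finset.sum_congr rfl e2]
    have hinj : Set.InjOn (fun m : ℕ => m.primeFactors)
        ((Icc 1 R).filter (fun m => Squarefree m ∧ Ro y m) : Finset ℕ) := by
      intro a ha b hb hab
      rw [Finset.mem_coe, mem_filter] at ha hb
      have h2 := Nat.prod_primeFactors_of_squarefree ha.2.1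
      have h3 := Nat.prod_primeFactors_of_squarefree hb.2.1
      simp only at hab
      rw [← h2, ← h3, hab]
    have e3 : ∑ m ∈ (Icc 1 R).filter (fun m => Squarefree m ∧ Ro y m),
        ∏ p ∈ m.primeFactors, 1 / ((p : ℝ) - 1) =
        ∑ A ∈ ((Icc 1 R).filter (fun m => Squarefree m ∧ Ro y m)).image
          (fun m : ℕ => m.primeFactors), ∏ p ∈ A, 1 / ((p : ℝ) - 1) :=
      (Finset.sum_image (f := fun A : Finset ℕ => ∏ p ∈ A, 1 / ((p : ℝ) - 1)) hinj).symm
    rw [e3]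
    apply Finset.sum_le_sum_of_subset_of_nonneg
    · intro A hA
      rw [mem_image] at hA
      obtain ⟨m, hm, rfl⟩ := hA
      rw [mem_filter, mem_Icc] at hm
      rw [mem_powerset]
      intro p hp
      rw [hS, mem_filter, mem_Icc]
      have hpd := Nat.dvd_of_mem_primeFactors hp
      have hpp := Nat.prime_of_mem_primeFactors hp
      exact ⟨⟨hpp.one_le, (Nat.le_of_dvd (by omega) hpd).trans hm.1.2⟩, hpp,
        hm.2.2 p hpp hpd⟩
    · intro A hA _
      rw [mem_powerset] at hA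
      refine Finset.prod_nonneg fun p hp => ?_
      have h5 : (1 : ℝ) < p := by exact_mod_cast (hSp p (hA hp)).one_lt
      apply one_div_nonneg.2
      linarith
  have h2 : ∑ A ∈ S.powerset, ∏ p ∈ A, 1 / ((p : ℝ) - 1) = ∏ p ∈ S, (1 + 1 / ((p : ℝ) - 1)) := by
    rw [Finset.prod_one_add]
  have h3 : ∏ p ∈ S, (1 + 1 / ((p : ℝ) - 1)) ≤ Real.exp (∑ p ∈ S, 1 / ((p : ℝ) - 1)) := by
    rw [Real.exp_sum]
    refine Finset.prod_le_prod (fun p hp => ?_) fun p _ => ?_
    · have h5 : (1 : ℝ) < p := by exact_mod_cast (hSp p hp).one_lt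
      have : 0 ≤ 1 / ((p : ℝ) - 1) := by
        apply one_div_nonneg.2
        linarith
      linarith
    · rw [add_comm]
      exact Real.add_one_le_exp _
  have h4 : ∑ p ∈ S, 1 / ((p : ℝ) - 1) ≤ 1 + ∑ p ∈ S, 1 / (p : ℝ) := by
    have e1 : ∑ p ∈ S, 1 / ((p : ℝ) - 1) = ∑ p ∈ S, 1 / ((p : ℝ) * ((p : ℝ) - 1)) +
        ∑ p ∈ S, 1 / (p : ℝ) := by
      rw [← Finset.sum_add_distrib]
      refine Finset.sum_congr rfl fun p hp => ?_
      have h5 : (1 : ℝ) < p := by exact_mod_cast (hSp p hp).one_lt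
      have h6 : (p : ℝ) ≠ 0 := by linarith
      have h7 : (p : ℝ) - 1 ≠ 0 := by linarith
      field_simp
      ring
    rw [e1]
    have e2 : ∑ p ∈ S, 1 / ((p : ℝ) * ((p : ℝ) - 1)) ≤ 1 := by
      refine le_trans (Finset.sum_le_sum_of_subset_of_nonneg (t := Icc 2 R) ?_ ?_) (tele R)
      · intro p hp
        have h5 := (hSp p hp).two_le
        rw [hS, mem_filter, mem_Icc] at hp
        rw [mem_Icc]
        exact ⟨h5, hp.1.2⟩
      · intro n hn _
        rw [mem_Icc] at hn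
        have h5 : (2 : ℝ) ≤ n := by exact_mod_cast hn.1
        have h6 : 0 ≤ (n : ℝ) - 1 := by linarith
        positivity
    linarith
  exact h1.trans (h2 ▸ h3.trans (Real.exp_le_exp.2 h4))

end Pool.Agent.H1.SG
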