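import Pool.Agent.H1.SG.Bd
import Pool.Agent.H11.RG.Evt
import Pool.Agent.H92.MM.Def

/-!
# [H1 SG G] The Selberg square `G` for the project ChenTuples

`G x n = (∑_{d ∣ n} λ_d)²`, `λ` Selberg's weights on the numbers `d ≤ x^(1/4-κ/2)` with all prime factors `≥ x^a0`.
-/

set_option autoImplicit false

namespace Pool.Agent.H1.SG

open Finset Filter Pool.Agent.H11.RG Pool.Agent.H92.MM

/-- the coefficients -/
noncomputable def gc (a0 κ : ℝ) (x : ℝ) (m : ℕ) : ℝ :=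
  cc (Ro (x ^ a0)) ⌊x ^ (1 / 4 - κ / 2)⌋₊ m

theorem dv_gc (a0 κ x : ℝ) (n : ℕ) (hn : n ≠ 0) : dv (gc a0 κ) x n =
    (∑ d ∈ (Icc 1 ⌊x ^ (1 / 4 - κ / 2)⌋₊).filter (fun d => d ∣ n),
      lam (Ro (x ^ a0)) ⌊x ^ (1 / 4 - κ / 2)⌋₊ d) ^ 2 := by
  unfold dv gc
  exact cc_dv _ n hn

theorem dv_gc_nonneg (a0 κ x : ℝ) (n : ℕ) : 0 ≤ dv (gc a0 κ) x n := by
  rcases eq_or_ne n 0 with rfl | hn
  · unfold dv
    simp
  · rw [dv_gc a0 κ x n hn]
    positivity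

/-- number of prime factors of a rough number -/
theorem card_rough {y : ℝ} (hy : 1 < y) {n : ℕ} (hn : n ≠ 0) {X b : ℝ} (hX : (n : ℝ) ≤ X)
    (hXb : X ≤ y ^ b) (Q : Finset ℕ) (hQ : ∀ p ∈ Q, p.Prime ∧ p ∣ n ∧ y ≤ (p : ℝ)) :
    (Q.card : ℝ) ≤ b := by
  have h1 : y ^ Q.card ≤ ∏ p ∈ Q, (p : ℝ) := by
    rw [← Finset.prod_const]
    exact Finset.prod_le_prod (fun _ _ => by linarith) fun p hp => (hQ p hp).2.2
  have h2 : (∏ p ∈ Q, p) ∣ n := by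
    have h3 : Q ⊆ n.primeFactors := fun p hp => Nat.mem_primeFactors.2
      ⟨(hQ p hp).1, (hQ p hp).2.1, hn⟩
    exact (Finset.prod_dvd_prod_of_subset _ _ _ h3).trans (Nat.prod_primeFactors_dvd n)
  have h3 : ∏ p ∈ Q, (p : ℝ) ≤ n := by
    have h5 := Nat.le_of_dvd (Nat.pos_of_ne_zero hn) h2
    calc ∏ p ∈ Q, (p : ℝ) = ((∏ p ∈ Q, p : ℕ) : ℝ) := by push_cast; rfl
      _ ≤ n := by exact_mod_cast h5
  have h4 : y ^ (Q.card : ℝ) ≤ y ^ b := by
    rw [Real.rpow_natCast]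
    exact h1.trans (h3.trans (hX.trans hXb))
  exact (Real.rpow_le_rpow_left_iff hy).1 h4

/-- the number of divisors of a squarefree number -/
theorem sqf_divisors {m : ℕ} (hm : Squarefree m) :
    m.divisors.card ≤ 2 ^ m.primeFactors.card := by
  have hm0 : m ≠ 0 := hm.ne_zero
  rw [← Finset.card_powerset]
  refine Finset.card_le_card_of_injOn (fun d => d.primeFactors) ?_ ?_
  · intro d hd
    rw [Finset.mem_coe, Nat.mem_divisors] at hd
    rw [Finset.mem_coe, mem_powerset]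
    exact Nat.primeFactors_mono hd.1 hm0
  · intro a ha b hb hab
    rw [Finset.mem_coe, Nat.mem_divisors] at ha hb
    have h2 := Nat.prod_primeFactors_of_squarefree (hm.squarefree_of_dvd ha.1)
    have h3 := Nat.prod_primeFactors_of_squarefree (hm.squarefree_of_dvd hb.1)
    simp only at hab
    rw [← h2, ← h3, hab]

/-- the sum of the weights over the divisors -/
theorem sum_lam_abs {y : ℝ} (hy : 1 < y) (R n : ℕ) (hR : 1 ≤ R) (hn : n ≠ 0) {X b : ℝ}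
    (hX : (n : ℝ) ≤ X) (hXb : X ≤ y ^ b) :
    |∑ d ∈ (Icc 1 R).filter (fun d => d ∣ n), lam (Ro y) R d| ≤ (2 : ℝ) ^ b := by
  classical
  set Q : Finset ℕ := n.primeFactors.filter (fun p : ℕ => y ≤ (p : ℝ)) with hQ
  have hQc : (Q.card : ℝ) ≤ b := by
    refine card_rough hy hn hX hXb Q fun p hp => ?_
    rw [hQ, mem_filter] at hp
    exact ⟨Nat.prime_of_mem_primeFactors hp.1, Nat.dvd_of_mem_primeFactors hp.1, hp.2⟩
  have h1 : ∑ d ∈ (Icc 1 R).filter (fun d => d ∣ n), lam (Ro y) R d =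
      ∑ d ∈ (Icc 1 R).filter (fun d => d ∣ n ∧ lam (Ro y) R d ≠ 0), lam (Ro y) R d := by
    symm
    apply Finset.sum_subset
    · intro d hd
      rw [mem_filter] at hd ⊢
      exact ⟨hd.1, hd.2.1⟩
    · intro d hd hd'
      rw [mem_filter] at hd hd'
      by_contra h0
      exact hd' ⟨hd.1, hd.2, h0⟩
  rw [h1]
  have h2 : |∑ d ∈ (Icc 1 R).filter (fun d => d ∣ n ∧ lam (Ro y) R d ≠ 0), lam (Ro y) R d| ≤
      (((Icc 1 R).filter (fun d => d ∣ n ∧ lam (Ro y) R d ≠ 0)).card : ℝ) := by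
    refine (Finset.abs_sum_le_sum_abs _ _).trans ?_
    refine (Finset.sum_le_card_nsmul _ _ 1 fun d _ => lam_abs (her_Ro y) R d hR).trans ?_
    rw [nsmul_eq_mul, mul_one]
  have h3 : ((Icc 1 R).filter (fun d => d ∣ n ∧ lam (Ro y) R d ≠ 0)).card ≤ 2 ^ Q.card := by
    rw [← Finset.card_powerset]
    refine Finset.card_le_card_of_injOn (fun d => d.primeFactors) ?_ ?_
    · intro d hd
      rw [Finset.mem_coe, mem_filter] at hd
      rw [Finset.mem_coe, mem_powerset]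
      intro p hp
      have h4 := lam_supp (her_Ro y) R d hd.2.2
      have hpp := Nat.prime_of_mem_primeFactors hp
      have hpd := Nat.dvd_of_mem_primeFactors hp
      rw [hQ, mem_filter, Nat.mem_primeFactors]
      exact ⟨⟨hpp, hpd.trans hd.2.1, hn⟩, h4.2.1 p hpp hpd⟩
    · intro a ha b hb hab
      rw [Finset.mem_coe, mem_filter] at ha hb
      have h2 := Nat.prod_primeFactors_of_squarefree (lam_supp (her_Ro y) R a ha.2.2).1
      have h3 := Nat.prod_primeFactors_of_squarefree (lam_supp (her_Ro y) R b hb.2.2).1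
      simp only at hab
      rw [← h2, ← h3, hab]
  calc |∑ d ∈ (Icc 1 R).filter (fun d => d ∣ n ∧ lam (Ro y) R d ≠ 0), lam (Ro y) R d|
      ≤ (((Icc 1 R).filter (fun d => d ∣ n ∧ lam (Ro y) R d ≠ 0)).card : ℝ) := h2
    _ ≤ (2 : ℝ) ^ Q.card := by exact_mod_cast h3
    _ = (2 : ℝ) ^ (Q.card : ℝ) := (Real.rpow_natCast _ _).symm
    _ ≤ (2 : ℝ) ^ b := Real.rpow_le_rpow_of_exponent_le (by norm_num) hQc

/-- the mean -/
theorem dm_gc (a0 κ x : ℝ) (hκ : 0 < κ) (hκ1 : κ ≤ 1 / 2000) (hx : 1 ≤ x) :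
    1 ≤ ⌊x ^ (1 / 4 - κ / 2)⌋₊ ∧ dm (gc a0 κ) x = 1 / Ss (Ro (x ^ a0)) ⌊x ^ (1 / 4 - κ / 2)⌋₊ ∧
      ((⌊x ^ (1 / 4 - κ / 2)⌋₊ ^ 2 : ℕ) : ℝ) ≤ x ^ (1 / 2 - κ) := by
  have hx0 : 0 < x := by linarith
  have h1 : 1 ≤ ⌊x ^ (1 / 4 - κ / 2)⌋₊ := by
    rw [Nat.one_le_floor_iff]
    exact Real.one_le_rpow hx (by linarith)
  have h2 : ((⌊x ^ (1 / 4 - κ / 2)⌋₊ ^ 2 : ℕ) : ℝ) ≤ x ^ (1 / 2 - κ) := by
    push_cast
    have h3 : (⌊x ^ (1 / 4 - κ / 2)⌋₊ : ℝ) ≤ x ^ (1 / 4 - κ / 2) :=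
      Nat.floor_le (Real.rpow_nonneg hx0.le _)
    calc (⌊x ^ (1 / 4 - κ / 2)⌋₊ : ℝ) ^ 2 ≤ (x ^ (1 / 4 - κ / 2)) ^ 2 :=
          pow_le_pow_left₀ (Nat.cast_nonneg _) h3 2
      _ = x ^ (1 / 2 - κ) := by
          rw [← Real.rpow_natCast, ← Real.rpow_mul hx0.le]
          congr 1
          push_cast
          ring
  refine ⟨h1, ?_, h2⟩
  unfold dm gc
  refine cc_sum (her_Ro _) _ h1 _ ?_
  apply Nat.le_floor
  refine h2.trans ?_
  calc x ^ (1 / 2 - κ) ≤ x ^ (1 : ℝ) := Real.rpow_le_rpow_of_exponent_le hx (by linarith)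
    _ = x := Real.rpow_one x

/-- the sum over the primes -/
theorem prime_sum (a0 : ℝ) (ha0 : 0 < a0) (ha1 : a0 ≤ 1 / 20) : ∀ᶠ x : ℝ in atTop, ∀ R : ℕ,
    (R : ℝ) ≤ x → ∑ p ∈ (Icc 1 R).filter (fun p : ℕ => p.Prime ∧ x ^ a0 ≤ (p : ℝ)),
      1 / (p : ℝ) ≤ 1 + (Real.log (1 / a0) + 1) := by
  classical
  have hR : (1 : ℝ) < 1 / a0 := by
    rw [lt_div_iff₀ ha0]
    linarith
  obtain ⟨u0, hu0, h⟩ := Pool.Agent.H75.AP.mertens_ratio (1 / a0) 1 hR one_pos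
  filter_upwards [(tendsto_rpow_atTop ha0).eventually (eventually_ge_atTop u0),
    eventually_ge_atTop (1 : ℝ)] with x hx hx1 R hRx
  have hx0 : 0 < x := by linarith
  obtain ⟨u, hu⟩ : ∃ u, u = x ^ a0 := ⟨_, rfl⟩
  rw [← hu] at hx ⊢
  have hu1 : 1 < u := lt_of_lt_of_le hu0 hx
  have hv : x = u ^ (1 / a0) := by
    rw [hu, ← Real.rpow_mul hx0.le, mul_one_div_cancel ha0.ne', Real.rpow_one]
  have h1 := h u x hx hv.le
  have hsub : (Icc 1 R).filter (fun p : ℕ => p.Prime ∧ u ≤ (p : ℝ)) ⊆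
      insert ⌊u⌋₊ (Pool.Agent.H75.AP.PI u x) := by
    intro p hp
    rw [mem_filter, mem_Icc] at hp
    rcases eq_or_lt_of_le hp.2.2 with he | hl
    · refine Finset.mem_insert.2 (Or.inl ?_)
      rw [he, Nat.floor_natCast]
    · refine Finset.mem_insert.2 (Or.inr ?_)
      unfold Pool.Agent.H75.AP.PI
      rw [Finset.mem_filter, Finset.mem_range]
      refine ⟨Nat.lt_succ_of_le (Nat.le_floor ?_), hp.2.1, hl⟩
      refine le_trans ?_ hRx
      exact_mod_cast hp.1.2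
  calc ∑ p ∈ (Icc 1 R).filter (fun p : ℕ => p.Prime ∧ u ≤ (p : ℝ)), 1 / (p : ℝ)
      ≤ ∑ p ∈ insert ⌊u⌋₊ (Pool.Agent.H75.AP.PI u x), (1 / (p : ℝ)) :=
        Finset.sum_le_sum_of_subset_of_nonneg hsub fun p _ _ => by positivity
    _ ≤ 1 / ((⌊u⌋₊ : ℕ) : ℝ) + ∑ p ∈ Pool.Agent.H75.AP.PI u x, (1 / (p : ℝ)) := by
        by_cases hmem : ⌊u⌋₊ ∈ Pool.Agent.H75.AP.PI u x
        · rw [Finset.insert_eq_of_mem hmem]
          have : (0 : ℝ) ≤ 1 / ((⌊u⌋₊ : ℕ) : ℝ) := by positivity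
          linarith
        · rw [Finset.sum_insert hmem]
    _ ≤ 1 + (Real.log (1 / a0) + 1) := by
        have h2 : (1 : ℝ) ≤ ((⌊u⌋₊ : ℕ) : ℝ) := by
          exact_mod_cast (Nat.one_le_floor_iff u).2 hu1.le
        have h3 : 1 / ((⌊u⌋₊ : ℕ) : ℝ) ≤ 1 := by
          rw [div_le_one (by linarith)]
          exact h2
        linarith

theorem hG_div (ε : ℝ) (hε : 0 < ε) : ∃ κ : ℝ, 0 < κ ∧ κ ≤ 1 / 2000 ∧ ∀ a0 : ℝ, 0 < a0 →
    a0 ≤ 1 / 20 → ∃ (c : ℝ → ℕ → ℝ) (C : ℝ), DivT a0 κ C c ∧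
      (∀ᶠ x : ℝ in atTop, ∀ m : ℕ, c x m ≠ 0 → Squarefree m) ∧
      (∀ᶠ x : ℝ in atTop, ∀ n : ℕ, 0 < n → (n : ℝ) ≤ x ^ (1 + 1 / 1000 : ℝ) →
        |dv c x n| ≤ 2 * Real.exp (3 / a0)) ∧
      (∀ᶠ x : ℝ in atTop, 1 / 100 * a0 ≤ dm c x) ∧
      (∀ᶠ x : ℝ in atTop, dm c x ≤ 2 * Real.exp (3 / a0)) ∧
      (∀ x n, 0 ≤ dv c x n) ∧
      (∀ᶠ x : ℝ in atTop, ∀ n : ℕ, n.Prime → Real.sqrt x < (n : ℝ) → 1 ≤ dv c x n) ∧
      (∀ᶠ x : ℝ in atTop, dm c x ≤ 4 * (1 + ε) * pr x a0) := by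
  obtain ⟨κ, hκd⟩ : ∃ κ : ℝ, κ = min (1 / 2000) (ε / (2 * (1 + ε))) := ⟨_, rfl⟩
  have hκ : 0 < κ := hκd ▸ lt_min (by norm_num) (by positivity)
  have hκ1 : κ ≤ 1 / 2000 := hκd ▸ min_le_left _ _
  have hκ2 : κ ≤ ε / (2 * (1 + ε)) := hκd ▸ min_le_right _ _
  have hκε : 1 ≤ (1 + ε) * (1 - 2 * κ) := by
    rw [le_div_iff₀ (by positivity)] at hκ2
    nlinarith
  refine ⟨κ, hκ, hκ1, fun a0 ha0 ha1 => ?_⟩
  have hexp1 : 1 ≤ 2 * Real.exp (3 / a0) := by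
    have := Real.add_one_le_exp (3 / a0)
    have h2 : 0 < 3 / a0 := by positivity
    linarith
  have hy : ∀ᶠ x : ℝ in atTop, 1 < x ^ a0 :=
    (tendsto_rpow_atTop ha0).eventually (eventually_gt_atTop 1)
  have hbase : ∀ x : ℝ, 1 ≤ x → ∀ t : ℝ, x ^ t ≤ (x ^ a0) ^ (t * (1 / a0)) := by
    intro x hx t
    rw [← Real.rpow_mul (by linarith)]
    apply le_of_eq
    congr 1
    field_simp
  refine ⟨gc a0 κ, (2 : ℝ) ^ (2 * (1 / a0)), ?_, ?_, ?_, ?_, ?_, dv_gc_nonneg a0 κ, ?_, ?_⟩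
  · -- DivT
    filter_upwards [hy, eventually_ge_atTop (1 : ℝ)] with x hy hx m
    obtain ⟨hR, -, hR2⟩ := dm_gc a0 κ x hκ hκ1 hx
    have hx0 : 0 < x := by linarith
    by_cases h0 : gc a0 κ x m = 0
    · refine ⟨?_, fun h => absurd h0 h⟩
      rw [h0, abs_zero]
      positivity
    · have h1 := cc_supp (her_Ro (x ^ a0)) (lcm_Ro (x ^ a0)) _ m h0
      have hm2 : (m : ℝ) ≤ x ^ (1 / 2 - κ) := by
        refine le_trans ?_ hR2
        exact_mod_cast h1.2.2.2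
      refine ⟨?_, fun _ => ⟨hm2, h1.2.1⟩⟩
      have h2 := cc_abs (her_Ro (x ^ a0)) ⌊x ^ (1 / 4 - κ / 2)⌋₊ m hR
      have h3 := sqf_divisors h1.1
      have h4 : (m.primeFactors.card : ℝ) ≤ 1 / a0 := by
        have hm1 : m ≠ 0 := by
          have := h1.2.2.1
          omega
        have hm3 : (m : ℝ) ≤ x ^ (1 : ℝ) :=
          hm2.trans (Real.rpow_le_rpow_of_exponent_le hx (show 1 / 2 - κ ≤ 1 by linarith))
        refine card_rough hy hm1 hm3 ?_ _ fun p hp => ?_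
        · have := hbase x hx 1
          rwa [one_mul] at this
        · have hpp := Nat.prime_of_mem_primeFactors hp
          have hpd := Nat.dvd_of_mem_primeFactors hp
          exact ⟨hpp, hpd, h1.2.1 p hpp hpd⟩
      have h5 : ((m.divisors.card : ℕ) : ℝ) ≤ (2 : ℝ) ^ (1 / a0) := by
        calc ((m.divisors.card : ℕ) : ℝ) ≤ ((2 ^ m.primeFactors.card : ℕ) : ℝ) := by
              exact_mod_cast h3
          _ = (2 : ℝ) ^ (m.primeFactors.card : ℝ) := by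
              rw [Real.rpow_natCast]
              push_cast
              rfl
          _ ≤ (2 : ℝ) ^ (1 / a0) := Real.rpow_le_rpow_of_exponent_le (by norm_num) h4
      calc |gc a0 κ x m| ≤ ((m.divisors.card : ℕ) : ℝ) ^ 2 := h2
        _ ≤ ((2 : ℝ) ^ (1 / a0)) ^ 2 := pow_le_pow_left₀ (Nat.cast_nonneg _) h5 2
        _ = (2 : ℝ) ^ (2 * (1 / a0)) := by
            rw [← Real.rpow_natCast, ← Real.rpow_mul (by norm_num)]
            congr 1
            push_cast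
            ring
  · -- squarefree
    filter_upwards with x m h0
    exact (cc_supp (her_Ro (x ^ a0)) (lcm_Ro (x ^ a0)) _ m h0).1
  · -- bound
    filter_upwards [hy, eventually_ge_atTop (1 : ℝ)] with x hy hx n hn hnx
    obtain ⟨hR, -, hR2⟩ := dm_gc a0 κ x hκ hκ1 hx
    rw [dv_gc a0 κ x n hn.ne', abs_pow]
    have h1 := sum_lam_abs hy ⌊x ^ (1 / 4 - κ / 2)⌋₊ n hR hn.ne' hnx (hbase x hx _)
    have h2 : (2 : ℝ) ^ ((1 + 1 / 1000) * (1 / a0)) ≤ Real.exp (3 / 2 * (1 / a0)) := by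
      rw [Real.rpow_def_of_pos (by norm_num)]
      apply Real.exp_le_exp.2
      have h3 := Real.log_two_lt_d9
      have h4 : 0 < 1 / a0 := by positivity
      nlinarith
    have h3 : 0 ≤ |∑ d ∈ (Icc 1 ⌊x ^ (1 / 4 - κ / 2)⌋₊).filter (fun d => d ∣ n),
        lam (Ro (x ^ a0)) ⌊x ^ (1 / 4 - κ / 2)⌋₊ d| := abs_nonneg _
    calc _ ≤ (Real.exp (3 / 2 * (1 / a0))) ^ 2 := pow_le_pow_left₀ h3 (h1.trans h2) 2
      _ = Real.exp (3 / a0) := by
          rw [← Real.exp_nat_mul]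
          congr 1
          push_cast
          ring
      _ ≤ 2 * Real.exp (3 / a0) := by
          have := Real.exp_pos (3 / a0)
          linarith
  · -- lower bound of the mean
    filter_upwards [prime_sum a0 ha0 ha1, eventually_ge_atTop (1 : ℝ)] with x hps hx
    obtain ⟨hR, hdm, hR2⟩ := dm_gc a0 κ x hκ hκ1 hx
    have hx0 : 0 < x := by linarith
    rw [hdm]
    have hRx : (⌊x ^ (1 / 4 - κ / 2)⌋₊ : ℝ) ≤ x := by
      calc (⌊x ^ (1 / 4 - κ / 2)⌋₊ : ℝ) ≤ x ^ (1 / 4 - κ / 2) :=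
            Nat.floor_le (Real.rpow_nonneg hx0.le _)
        _ ≤ x ^ (1 : ℝ) := Real.rpow_le_rpow_of_exponent_le hx (by linarith)
        _ = x := Real.rpow_one x
    have h1 := Ss_upper (x ^ a0) ⌊x ^ (1 / 4 - κ / 2)⌋₊
    have h2 := hps _ hRx
    have hS := Ss_pos (her_Ro (x ^ a0)) _ hR
    have h3 : Ss (Ro (x ^ a0)) ⌊x ^ (1 / 4 - κ / 2)⌋₊ ≤ 100 / a0 := by
      refine h1.trans ?_
      calc Real.exp (1 + ∑ p ∈ (Icc 1 ⌊x ^ (1 / 4 - κ / 2)⌋₊).filter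
            (fun p : ℕ => p.Prime ∧ x ^ a0 ≤ (p : ℝ)), 1 / (p : ℝ))
          ≤ Real.exp (3 + Real.log (1 / a0)) := Real.exp_le_exp.2 (by linarith)
        _ = Real.exp 3 * (1 / a0) := by
            rw [Real.exp_add, Real.exp_log (by positivity)]
        _ ≤ 100 * (1 / a0) := by
            apply mul_le_mul_of_nonneg_right _ (by positivity)
            have e1 : Real.exp 3 = Real.exp 1 ^ 3 := by
              rw [← Real.exp_nat_mul]
              norm_num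
            rw [e1]
            have e2 := Real.exp_one_lt_d9
            have e3 : Real.exp 1 ^ 3 ≤ (3 : ℝ) ^ 3 :=
              pow_le_pow_left₀ (Real.exp_pos 1).le (by linarith) 3
            linarith
        _ = 100 / a0 := by ring
    rw [le_div_iff₀ hS]
    calc 1 / 100 * a0 * Ss (Ro (x ^ a0)) ⌊x ^ (1 / 4 - κ / 2)⌋₊
        ≤ 1 / 100 * a0 * (100 / a0) := mul_le_mul_of_nonneg_left h3 (by positivity)
      _ = 1 := by field_simp
  · -- upper bound of the mean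
    filter_upwards [eventually_ge_atTop (1 : ℝ)] with x hx
    obtain ⟨hR, hdm, -⟩ := dm_gc a0 κ x hκ hκ1 hx
    rw [hdm]
    have h1 := one_le_Ss (her_Ro (x ^ a0)) _ hR
    have h2 : 1 / Ss (Ro (x ^ a0)) ⌊x ^ (1 / 4 - κ / 2)⌋₊ ≤ 1 := by
      rw [div_le_one (by linarith)]
      exact h1
    exact h2.trans hexp1
  · -- primes
    filter_upwards [eventually_ge_atTop (1 : ℝ)] with x hx n hn hnx
    obtain ⟨hR, -, -⟩ := dm_gc a0 κ x hκ hκ1 hx
    have hx0 : 0 < x := by linarith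
    rw [dv_gc a0 κ x n hn.ne_zero]
    have hRn : ⌊x ^ (1 / 4 - κ / 2)⌋₊ < n := by
      have h1 : (⌊x ^ (1 / 4 - κ / 2)⌋₊ : ℝ) < n := by
        calc (⌊x ^ (1 / 4 - κ / 2)⌋₊ : ℝ) ≤ x ^ (1 / 4 - κ / 2) :=
              Nat.floor_le (Real.rpow_nonneg hx0.le _)
          _ ≤ x ^ (1 / 2 : ℝ) := Real.rpow_le_rpow_of_exponent_le hx (by linarith)
          _ = Real.sqrt x := (Real.sqrt_eq_rpow x).symm
          _ < n := hnx
      exact_mod_cast h1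
    have h1 : (Icc 1 ⌊x ^ (1 / 4 - κ / 2)⌋₊).filter (fun d => d ∣ n) = {1} := by
      ext d
      rw [mem_filter, mem_Icc, mem_singleton]
      constructor
      · rintro ⟨⟨h2, h3⟩, h4⟩
        rcases (Nat.dvd_prime hn).1 h4 with h5 | h5
        · exact h5
        · omega
      · rintro rfl
        exact ⟨⟨le_rfl, hR⟩, one_dvd _⟩
    rw [h1, Finset.sum_singleton, lam_one (her_Ro _) _ hR]
    norm_num
  · -- comparison with the density of the primes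
    filter_upwards [eventually_gt_atTop (1 : ℝ)] with x hx
    obtain ⟨hR, hdm, -⟩ := dm_gc a0 κ x hκ hκ1 hx.le
    have hx0 : 0 < x := by linarith
    have hlog : 0 < Real.log x := Real.log_pos hx
    rw [hdm]
    unfold pr
    obtain ⟨E, hE⟩ : ∃ E, E = ∏ p ∈ (range ⌈x ^ a0⌉₊).filter Nat.Prime, (1 - 1 / (p : ℝ)) :=
      ⟨_, rfl⟩
    have hEpos : 0 < E := by
      rw [hE]
      refine Finset.prod_pos fun p hp => ?_
      have h1 : (1 : ℝ) < p := by exact_mod_cast (mem_filter.1 hp).2.one_lt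
      rw [sub_pos, div_lt_one (by linarith)]
      exact h1
    have h1 := Ss_lower (x ^ a0) ⌊x ^ (1 / 4 - κ / 2)⌋₊
    rw [← hE] at h1 ⊢
    have h2 : (1 / 4 - κ / 2) * Real.log x ≤
        Real.log ((⌊x ^ (1 / 4 - κ / 2)⌋₊ : ℝ) + 1) := by
      rw [← Real.log_rpow hx0]
      exact Real.log_le_log (Real.rpow_pos_of_pos hx0 _) (Nat.lt_floor_add_one _).le
    have h3 : (1 / 4 - κ / 2) * Real.log x * E ≤ Ss (Ro (x ^ a0)) ⌊x ^ (1 / 4 - κ / 2)⌋₊ :=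
      (mul_le_mul_of_nonneg_right h2 hEpos.le).trans h1
    have hS := Ss_pos (her_Ro (x ^ a0)) _ hR
    have hLE : 0 < Real.log x * E := mul_pos hlog hEpos
    rw [mul_one_div, div_le_div_iff₀ hS hLE, one_mul]
    calc Real.log x * E ≤ (1 + ε) * (1 - 2 * κ) * (Real.log x * E) :=
          le_mul_of_one_le_left hLE.le hκε
      _ = 4 * (1 + ε) * ((1 / 4 - κ / 2) * Real.log x * E) := by ring
      _ ≤ 4 * (1 + ε) * Ss (Ro (x ^ a0)) ⌊x ^ (1 / 4 - κ / 2)⌋₊ :=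
          mul_le_mul_of_nonneg_left h3 (by positivity)

end Pool.Agent.H1.SG
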