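import Mathlib

/-!
# [H1 SG SEL] Selberg's weights with prime factors in a restricted set

`P` is a property of natural numbers which passes to divisors, `P 1`.  `gs P m = 1/φ(m)` for squarefree `m` with `P m`,
`Ss P R = ∑_{m ≤ R} gs P m`, `lam P R d` Selberg's weights.  Adapted from `Pool/Agent/H24/AB/{Wt,Quad}.lean`
(the case that `P` is always true).
-/

set_option autoImplicit false

namespace Pool.Agent.H1.SG

open Finset

variable (P : ℕ → Prop)

open Classical in
/-- `μ²(m) / φ(m)` on the numbers with property `P` -/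
noncomputable def gs (m : ℕ) : ℝ := if Squarefree m ∧ P m then 1 / (Nat.totient m : ℝ) else 0

/-- Selberg's sum -/
noncomputable def Ss (R : ℕ) : ℝ := ∑ m ∈ Icc 1 R, gs P m

/-- the part of Selberg's sum over the multiples of `d` -/
noncomputable def Gd (R d : ℕ) : ℝ := ∑ m ∈ (Icc 1 R).filter (fun m => d ∣ m), gs P m

/-- Selberg's weights -/
noncomputable def lam (R d : ℕ) : ℝ :=
  (ArithmeticFunction.moebius d : ℝ) * d * Gd P R d / Ss P R

/-- the coefficients of the square -/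
noncomputable def cc (R e : ℕ) : ℝ :=
  ∑ z ∈ ((Icc 1 R) ×ˢ (Icc 1 R)).filter (fun z => z.1.lcm z.2 = e), lam P R z.1 * lam P R z.2

/-- the property passes to divisors -/
structure Her : Prop where
  one : P 1
  dvd : ∀ a b : ℕ, a ∣ b → P b → P a

variable {P}

theorem gs_nonneg (m : ℕ) : 0 ≤ gs P m := by
  unfold gs
  split_ifs
  · positivity
  · exact le_refl _

theorem gs_one (hP : Her P) : gs P 1 = 1 := by
  unfold gs
  rw [if_pos ⟨squarefree_one, hP.one⟩]
  simp

theorem one_le_Ss (hP : Her P) (R : ℕ) (hR : 1 ≤ R) : 1 ≤ Ss P R := by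
  unfold Ss
  rw [← gs_one hP]
  exact Finset.single_le_sum (f := fun m => gs P m) (fun i _ => gs_nonneg i)
    (Finset.mem_Icc.2 ⟨le_refl _, hR⟩)

theorem Ss_pos (hP : Her P) (R : ℕ) (hR : 1 ≤ R) : 0 < Ss P R :=
  lt_of_lt_of_le one_pos (one_le_Ss hP R hR)

theorem lam_one (hP : Her P) (R : ℕ) (hR : 1 ≤ R) : lam P R 1 = 1 := by
  have h := Ss_pos hP R hR
  have hG : Gd P R 1 = Ss P R := by
    unfold Gd Ss
    rw [Finset.filter_true_of_mem]
    intro m _
    exact one_dvd m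
  unfold lam
  rw [hG]
  simp [h.ne']

theorem lam_big (R d : ℕ) (h : R < d) : lam P R d = 0 := by
  have hG : Gd P R d = 0 := by
    unfold Gd
    rw [Finset.filter_false_of_mem, Finset.sum_empty]
    intro m hm hd
    rw [Finset.mem_Icc] at hm
    have := Nat.le_of_dvd (by omega) hd
    omega
  unfold lam
  rw [hG]
  simp

/-- the support of the weights -/
theorem lam_supp (hP : Her P) (R d : ℕ) (h : lam P R d ≠ 0) : Squarefree d ∧ P d ∧ d ≤ R := by
  have hG : Gd P R d ≠ 0 := by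
    intro h0
    apply h
    unfold lam
    rw [h0]
    simp
  unfold Gd at hG
  obtain ⟨m, hm, hm0⟩ := Finset.exists_ne_zero_of_sum_ne_zero hG
  rw [Finset.mem_filter, Finset.mem_Icc] at hm
  have h1 : Squarefree m ∧ P m := by
    by_contra h2
    apply hm0
    unfold gs
    rw [if_neg h2]
  exact ⟨h1.1.squarefree_of_dvd hm.2, hP.dvd _ _ hm.2 h1.2,
    (Nat.le_of_dvd (by omega) hm.2).trans hm.1.2⟩

private theorem gs_div_sum (hP : Her P) (d n : ℕ) (hdn : Squarefree (d * n)) (hPdn : P (d * n))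
    (hn : 0 < n) :
    (d : ℝ) * gs P (d * n) = ∑ k ∈ d.divisors, gs P (k * n) := by
  have hsq := Nat.squarefree_mul_iff.1 hdn
  obtain ⟨hcop, hd, hnn⟩ := hsq
  have hd0 : d ≠ 0 := hd.ne_zero
  have hφd : (0 : ℝ) < (Nat.totient d : ℝ) := by
    exact_mod_cast Nat.totient_pos.2 (Nat.pos_of_ne_zero hd0)
  have hφn : (0 : ℝ) < (Nat.totient n : ℝ) := by
    exact_mod_cast Nat.totient_pos.2 hn
  have h1 : ∀ k ∈ d.divisors, gs P (k * n) =
      (Nat.totient (d / k) : ℝ) / (Nat.totient d * Nat.totient n) := by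
    intro k hk
    have hkd : k ∣ d := Nat.dvd_of_mem_divisors hk
    have hk0 : 0 < k := Nat.pos_of_mem_divisors hk
    have hkn : k * n ∣ d * n := Nat.mul_dvd_mul_right hkd n
    have hcopk : Nat.Coprime k n := Nat.Coprime.coprime_dvd_left hkd hcop
    have hsqk : Squarefree (k * n) := Squarefree.squarefree_of_dvd hkn hdn
    have hPk : P (k * n) := hP.dvd _ _ hkn hPdn
    have hcopd : Nat.Coprime k (d / k) := by
      have hh : k * (d / k) = d := Nat.mul_div_cancel' hkd
      have hh2 : Squarefree (k * (d / k)) := by rw [hh]; exact hd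
      exact (Nat.squarefree_mul_iff.1 hh2).1
    have hφ : Nat.totient d = Nat.totient k * Nat.totient (d / k) := by
      have hh : k * (d / k) = d := Nat.mul_div_cancel' hkd
      rw [← Nat.totient_mul hcopd, hh]
    have hφk : (0 : ℝ) < (Nat.totient k : ℝ) := by
      exact_mod_cast Nat.totient_pos.2 hk0
    have hdk0 : 0 < d / k := Nat.div_pos (Nat.le_of_dvd (Nat.pos_of_ne_zero hd0) hkd) hk0
    have hφdk : (0 : ℝ) < (Nat.totient (d / k) : ℝ) := by
      exact_mod_cast Nat.totient_pos.2 hdk0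
    unfold gs
    rw [if_pos ⟨hsqk, hPk⟩, Nat.totient_mul hcopk, hφ]
    push_cast
    field_simp
  rw [Finset.sum_congr rfl h1, ← Finset.sum_div]
  have h2 : ∑ k ∈ d.divisors, (Nat.totient (d / k) : ℝ) = d := by
    have h3 : ∑ k ∈ d.divisors, Nat.totient (d / k) = d := by
      rw [Nat.sum_div_divisors d Nat.totient, Nat.sum_totient]
    exact_mod_cast h3
  rw [h2]
  unfold gs
  rw [if_pos ⟨hdn, hPdn⟩, Nat.totient_mul hcop]
  push_cast
  field_simp

open Classical in
private theorem d_Gd_le (hP : Her P) (R d : ℕ) (hd : Squarefree d) :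
    (d : ℝ) * Gd P R d ≤ Ss P R := by
  have hd0 : d ≠ 0 := hd.ne_zero
  have hdpos : 0 < d := Nat.pos_of_ne_zero hd0
  set S : Finset ℕ := (Icc 1 R).filter (fun m => d ∣ m ∧ Squarefree m ∧ P m) with hS
  have h1 : Gd P R d = ∑ m ∈ S, gs P m := by
    unfold Gd
    symm
    apply Finset.sum_subset
    · intro m hm
      rw [hS, Finset.mem_filter] at hm
      rw [Finset.mem_filter]
      exact ⟨hm.1, hm.2.1⟩
    · intro m hm hm'
      rw [Finset.mem_filter] at hm
      unfold gs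
      rw [if_neg]
      intro hsq
      apply hm'
      rw [hS, Finset.mem_filter]
      exact ⟨hm.1, hm.2, hsq⟩
  have hm_facts : ∀ m ∈ S, d * (m / d) = m ∧ 0 < m / d ∧ Nat.Coprime d (m / d) ∧ m ≤ R ∧
      Squarefree (d * (m / d)) ∧ P (d * (m / d)) := by
    intro m hm
    rw [hS, Finset.mem_filter, Finset.mem_Icc] at hm
    obtain ⟨⟨hm1, hmR⟩, hdm, hsq, hPm⟩ := hm
    have hmd : d * (m / d) = m := Nat.mul_div_cancel' hdm
    have hsq' : Squarefree (d * (m / d)) := by rw [hmd]; exact hsq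
    refine ⟨hmd, Nat.div_pos (Nat.le_of_dvd (by omega) hdm) hdpos,
      (Nat.squarefree_mul_iff.1 hsq').1, hmR, hsq', by rw [hmd]; exact hPm⟩
  have h2 : (d : ℝ) * Gd P R d = ∑ z ∈ S ×ˢ d.divisors, gs P (z.2 * (z.1 / d)) := by
    rw [h1, Finset.mul_sum, Finset.sum_product]
    apply Finset.sum_congr rfl
    intro m hm
    obtain ⟨hmd, hpos, hcop, hmR, hsq', hPm⟩ := hm_facts m hm
    have h3 := gs_div_sum hP d (m / d) hsq' hPm hpos
    rw [hmd] at h3
    exact h3
  have hinj : Set.InjOn (fun z : ℕ × ℕ => z.2 * (z.1 / d)) (S ×ˢ d.divisors : Finset (ℕ × ℕ)) := by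
    rintro ⟨m, k⟩ hz ⟨m', k'⟩ hz' heq
    rw [Finset.mem_coe, Finset.mem_product] at hz hz'
    obtain ⟨hmd, hpos, hcop, hmR, hsq', -⟩ := hm_facts m hz.1
    obtain ⟨hmd', hpos', hcop', hmR', hsq'', -⟩ := hm_facts m' hz'.1
    have hk : k ∣ d := Nat.dvd_of_mem_divisors hz.2
    have hk' : k' ∣ d := Nat.dvd_of_mem_divisors hz'.2
    have hk0 : 0 < k := Nat.pos_of_mem_divisors hz.2
    have e1 : Nat.gcd (k * (m / d)) d = k := by
      rw [Nat.Coprime.gcd_mul_right_cancel k hcop.symm]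
      exact Nat.gcd_eq_left hk
    have e2 : Nat.gcd (k' * (m' / d)) d = k' := by
      rw [Nat.Coprime.gcd_mul_right_cancel k' hcop'.symm]
      exact Nat.gcd_eq_left hk'
    simp only at heq
    have hkk : k = k' := by rw [← e1, ← e2, heq]
    subst hkk
    have hmm : m / d = m' / d := Nat.eq_of_mul_eq_mul_left hk0 heq
    have : m = m' := by rw [← hmd, ← hmd', hmm]
    rw [this]
  rw [h2]
  have h4 : ∑ z ∈ S ×ˢ d.divisors, gs P (z.2 * (z.1 / d)) =
      ∑ y ∈ (S ×ˢ d.divisors).image (fun z : ℕ × ℕ => z.2 * (z.1 / d)), gs P y :=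
    (Finset.sum_image hinj).symm
  rw [h4]
  unfold Ss
  apply Finset.sum_le_sum_of_subset_of_nonneg
  · intro y hy
    rw [Finset.mem_image] at hy
    obtain ⟨⟨m, k⟩, hz, rfl⟩ := hy
    rw [Finset.mem_product] at hz
    obtain ⟨hmd, hpos, hcop, hmR, hsq', -⟩ := hm_facts m hz.1
    have hk : k ∣ d := Nat.dvd_of_mem_divisors hz.2
    have hk0 : 0 < k := Nat.pos_of_mem_divisors hz.2
    have hkd : k ≤ d := Nat.le_of_dvd hdpos hk
    rw [Finset.mem_Icc]
    constructor
    · exact Nat.mul_pos hk0 hpos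
    · calc k * (m / d) ≤ d * (m / d) := Nat.mul_le_mul_right _ hkd
        _ = m := hmd
        _ ≤ R := hmR
  · intro i _ _
    exact gs_nonneg i

theorem lam_abs (hP : Her P) (R d : ℕ) (hR : 1 ≤ R) : |lam P R d| ≤ 1 := by
  by_cases h0 : lam P R d = 0
  · rw [h0, abs_zero]
    exact zero_le_one
  · have hd := (lam_supp hP R d h0).1
    have h := Ss_pos hP R hR
    have hG : 0 ≤ Gd P R d := by
      unfold Gd
      exact Finset.sum_nonneg (fun i _ => gs_nonneg i)
    have h1 := d_Gd_le hP R d hd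
    have hμ : |(ArithmeticFunction.moebius d : ℝ)| ≤ 1 := by
      exact_mod_cast ArithmeticFunction.abs_moebius_le_one
    unfold lam
    rw [abs_div, abs_of_pos h, div_le_one h, mul_assoc, abs_mul,
      abs_of_nonneg (mul_nonneg (Nat.cast_nonneg d) hG)]
    calc |(ArithmeticFunction.moebius d : ℝ)| * (d * Gd P R d) ≤ 1 * (d * Gd P R d) :=
          mul_le_mul_of_nonneg_right hμ (mul_nonneg (Nat.cast_nonneg d) hG)
      _ ≤ Ss P R := by rw [one_mul]; exact h1

open ArithmeticFunction ArithmeticFunction.Moebius in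
/-- copy of `Pool.Agent.H3.WSieve.sum_moebius_between` -/
private theorem moebius_between {m l : ℕ} (hm : Squarefree m) :
    (∑ d ∈ m.divisors, if l ∣ d then (μ d : ℝ) else 0) = if m = l then (μ l : ℝ) else 0 := by
  have hm0 : m ≠ 0 := hm.ne_zero
  by_cases hl : l ∣ m
  · obtain ⟨k, rfl⟩ := hl
    have hl0 : l ≠ 0 := left_ne_zero_of_mul hm0
    have hk0 : k ≠ 0 := right_ne_zero_of_mul hm0
    have hsq := Nat.squarefree_mul_iff.mp hm
    rw [← Finset.sum_filter]
    have h1 : ((l * k).divisors).filter (fun d => l ∣ d) = k.divisors.image (fun e => l * e) := by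
      ext d
      simp only [mem_filter, Nat.mem_divisors, mem_image]
      constructor
      · rintro ⟨⟨hd, _⟩, e, rfl⟩
        exact ⟨e, ⟨(Nat.mul_dvd_mul_iff_left (Nat.pos_of_ne_zero hl0)).mp hd, hk0⟩, rfl⟩
      · rintro ⟨e, ⟨he, _⟩, rfl⟩
        exact ⟨⟨Nat.mul_dvd_mul_left l he, hm0⟩, Dvd.intro _ rfl⟩
    rw [h1, Finset.sum_image]
    · have h2 : ∀ e ∈ k.divisors, (μ (l * e) : ℝ) = (μ l : ℝ) * (μ e : ℝ) := by
        intro e he
        have hcop : Nat.Coprime l e :=
          Nat.Coprime.coprime_dvd_right (Nat.dvd_of_mem_divisors he) hsq.1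
        rw [isMultiplicative_moebius.map_mul_of_coprime hcop]
        push_cast
        ring
      rw [Finset.sum_congr rfl h2, ← Finset.mul_sum]
      have h3 : (∑ e ∈ k.divisors, (μ e : ℤ)) = if k = 1 then 1 else 0 := by
        have := congrArg (fun f : ArithmeticFunction ℤ => f k) moebius_mul_coe_zeta
        simp only [ArithmeticFunction.coe_mul_zeta_apply, ArithmeticFunction.one_apply] at this
        exact this
      have h4 : (∑ e ∈ k.divisors, (μ e : ℝ)) = if k = 1 then 1 else 0 := by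
        have h5 : ((∑ e ∈ k.divisors, (μ e : ℤ) : ℤ) : ℝ) = (((if k = 1 then 1 else 0 : ℤ)) : ℝ) := by
          rw [h3]
        push_cast at h5
        exact h5
      rw [h4]
      by_cases hk : k = 1
      · subst hk
        simp
      · rw [if_neg hk, mul_zero, if_neg]
        intro h
        apply hk
        have : l * k = l * 1 := by rw [h, mul_one]
        exact Nat.eq_of_mul_eq_mul_left (Nat.pos_of_ne_zero hl0) this
    · intro a _ b _ hab
      exact Nat.eq_of_mul_eq_mul_left (Nat.pos_of_ne_zero hl0) hab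
  · rw [if_neg]
    · apply Finset.sum_eq_zero
      intro d hd
      rw [if_neg]
      intro h
      exact hl (h.trans (Nat.dvd_of_mem_divisors hd))
    · rintro rfl
      exact hl dvd_rfl

private theorem sum_mu_Gd (R l : ℕ) (hl : l ∈ Icc 1 R) :
    ∑ d ∈ Icc 1 R, (if l ∣ d then (ArithmeticFunction.moebius d : ℝ) * Gd P R d else 0) =
      (ArithmeticFunction.moebius l : ℝ) * gs P l := by
  have h1 : ∀ d ∈ Icc 1 R, (if l ∣ d then (ArithmeticFunction.moebius d : ℝ) * Gd P R d else 0) =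
      ∑ m ∈ Icc 1 R, gs P m * (if d ∣ m then
        (if l ∣ d then (ArithmeticFunction.moebius d : ℝ) else 0) else 0) := by
    intro d _
    unfold Gd
    rw [Finset.sum_filter]
    split_ifs with h
    · rw [Finset.mul_sum]
      refine Finset.sum_congr rfl fun m _ => ?_
      split_ifs <;> ring
    · symm
      apply Finset.sum_eq_zero
      intro m _
      split_ifs <;> ring
  rw [Finset.sum_congr rfl h1, Finset.sum_comm]
  have h2 : ∀ m ∈ Icc 1 R, ∑ d ∈ Icc 1 R, gs P m * (if d ∣ m then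
      (if l ∣ d then (ArithmeticFunction.moebius d : ℝ) else 0) else 0) =
      gs P m * (if m = l then (ArithmeticFunction.moebius l : ℝ) else 0) := by
    intro m hm
    rw [← Finset.mul_sum]
    by_cases hsq : Squarefree m ∧ P m
    · congr 1
      rw [← moebius_between hsq.1, ← Finset.sum_filter]
      apply Finset.sum_congr
      · ext d
        rw [Finset.mem_filter, Finset.mem_Icc, Nat.mem_divisors]
        rw [Finset.mem_Icc] at hm
        constructor
        · rintro ⟨_, h⟩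
          exact ⟨h, by omega⟩
        · rintro ⟨h, _⟩
          have h3 := Nat.le_of_dvd (by omega) h
          have h4 := Nat.pos_of_dvd_of_pos h (by omega)
          exact ⟨⟨h4, by omega⟩, h⟩
      · intro _ _
        rfl
    · have : gs P m = 0 := by
        unfold gs
        rw [if_neg hsq]
      rw [this, zero_mul, zero_mul]
  rw [Finset.sum_congr rfl h2]
  simp only [mul_ite, mul_zero]
  rw [Finset.sum_ite_eq' (Icc 1 R) l, if_pos hl, mul_comm]

theorem quad (hP : Her P) (R : ℕ) (hR : 1 ≤ R) :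
    ∑ d1 ∈ Icc 1 R, ∑ d2 ∈ Icc 1 R, lam P R d1 * lam P R d2 / (d1.lcm d2 : ℝ) = 1 / Ss P R := by
  have hS := Ss_pos hP R hR
  have h1 : ∀ d1 ∈ Icc 1 R, ∀ d2 ∈ Icc 1 R, lam P R d1 * lam P R d2 / (d1.lcm d2 : ℝ) =
      ∑ l ∈ Icc 1 R, (Nat.totient l : ℝ) * ((if l ∣ d1 then lam P R d1 / d1 else 0) *
        (if l ∣ d2 then lam P R d2 / d2 else 0)) := by
    intro d1 hd1 d2 hd2
    rw [Finset.mem_Icc] at hd1 hd2
    have p1 : (0 : ℝ) < d1 := by exact_mod_cast (by omega : 0 < d1)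
    have p2 : (0 : ℝ) < d2 := by exact_mod_cast (by omega : 0 < d2)
    have hg : (∑ l ∈ Icc 1 R, if l ∣ d1 ∧ l ∣ d2 then (Nat.totient l : ℝ) else 0) =
        (d1.gcd d2 : ℝ) := by
      rw [← Finset.sum_filter]
      have h2 : (Icc 1 R).filter (fun l => l ∣ d1 ∧ l ∣ d2) = (d1.gcd d2).divisors := by
        ext l
        rw [Finset.mem_filter, Finset.mem_Icc, Nat.mem_divisors, Nat.dvd_gcd_iff]
        constructor
        · rintro ⟨_, h⟩
          exact ⟨h, Nat.gcd_ne_zero_left (by omega)⟩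
        · rintro ⟨h, _⟩
          have h3 := Nat.le_of_dvd (by omega) h.1
          have h4 := Nat.pos_of_dvd_of_pos h.1 (by omega)
          exact ⟨⟨h4, by omega⟩, h⟩
      rw [h2]
      have h5 := Nat.sum_totient (d1.gcd d2)
      exact_mod_cast h5
    have hlcm : (d1.gcd d2 : ℝ) * (d1.lcm d2 : ℝ) = d1 * d2 := by
      exact_mod_cast Nat.gcd_mul_lcm d1 d2
    have hgpos : (0 : ℝ) < (d1.gcd d2 : ℝ) := by
      exact_mod_cast Nat.gcd_pos_of_pos_left d2 (by omega)
    have hlpos : (0 : ℝ) < (d1.lcm d2 : ℝ) := by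
      exact_mod_cast Nat.lcm_pos (by omega) (by omega)
    have h6 : lam P R d1 * lam P R d2 / (d1.lcm d2 : ℝ) =
        (lam P R d1 / d1) * (lam P R d2 / d2) * (d1.gcd d2 : ℝ) := by
      rw [div_mul_div_comm, div_mul_eq_mul_div, ← hlcm,
        mul_comm (d1.gcd d2 : ℝ) (d1.lcm d2 : ℝ), mul_div_mul_right _ _ hgpos.ne']
    rw [h6, ← hg, Finset.mul_sum]
    refine Finset.sum_congr rfl fun l _ => ?_
    by_cases a1 : l ∣ d1 <;> by_cases a2 : l ∣ d2 <;> simp [a1, a2] <;> ring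
  have h2 : ∑ d1 ∈ Icc 1 R, ∑ d2 ∈ Icc 1 R, lam P R d1 * lam P R d2 / (d1.lcm d2 : ℝ) =
      ∑ l ∈ Icc 1 R, (Nat.totient l : ℝ) *
        (∑ d ∈ Icc 1 R, if l ∣ d then lam P R d / d else 0) ^ 2 := by
    rw [Finset.sum_congr rfl (fun d1 hd1 => Finset.sum_congr rfl (fun d2 hd2 => h1 d1 hd1 d2 hd2))]
    calc _ = ∑ d1 ∈ Icc 1 R, ∑ l ∈ Icc 1 R, ∑ d2 ∈ Icc 1 R, (Nat.totient l : ℝ) *
          ((if l ∣ d1 then lam P R d1 / d1 else 0) * (if l ∣ d2 then lam P R d2 / d2 else 0)) :=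
          Finset.sum_congr rfl (fun d1 _ => Finset.sum_comm)
      _ = ∑ l ∈ Icc 1 R, ∑ d1 ∈ Icc 1 R, ∑ d2 ∈ Icc 1 R, (Nat.totient l : ℝ) *
          ((if l ∣ d1 then lam P R d1 / d1 else 0) * (if l ∣ d2 then lam P R d2 / d2 else 0)) :=
          Finset.sum_comm
      _ = _ := by
          refine Finset.sum_congr rfl fun l _ => ?_
          rw [pow_two, Finset.sum_mul_sum, Finset.mul_sum]
          refine Finset.sum_congr rfl fun d1 _ => ?_
          rw [Finset.mul_sum]
  rw [h2]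
  have h3 : ∀ l ∈ Icc 1 R, (Nat.totient l : ℝ) *
      (∑ d ∈ Icc 1 R, if l ∣ d then lam P R d / d else 0) ^ 2 = gs P l / (Ss P R) ^ 2 := by
    intro l hl
    have h4 : ∑ d ∈ Icc 1 R, (if l ∣ d then lam P R d / d else 0) =
        (ArithmeticFunction.moebius l : ℝ) * gs P l / Ss P R := by
      rw [← sum_mu_Gd R l hl, Finset.sum_div]
      refine Finset.sum_congr rfl fun d hd => ?_
      rw [Finset.mem_Icc] at hd
      have hd0 : (d : ℝ) ≠ 0 := by
        have : d ≠ 0 := by omega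
        exact_mod_cast this
      split_ifs
      · unfold lam
        field_simp
      · rw [zero_div]
    rw [h4]
    unfold gs
    split_ifs with hsq
    · have hφ : (0 : ℝ) < (Nat.totient l : ℝ) := by
        rw [Finset.mem_Icc] at hl
        exact_mod_cast Nat.totient_pos.2 (by omega)
      have hμ : (ArithmeticFunction.moebius l : ℝ) ^ 2 = 1 := by
        have := ArithmeticFunction.moebius_sq_eq_one_of_squarefree hsq.1
        exact_mod_cast this
      have : (Nat.totient l : ℝ) *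
          ((ArithmeticFunction.moebius l : ℝ) * (1 / (Nat.totient l : ℝ)) / Ss P R) ^ 2
          = (ArithmeticFunction.moebius l : ℝ) ^ 2 * ((1 / (Nat.totient l : ℝ)) / Ss P R ^ 2) := by
        field_simp
      rw [this, hμ, one_mul]
    · simp
  rw [Finset.sum_congr rfl h3, ← Finset.sum_div]
  have h5 : ∑ l ∈ Icc 1 R, gs P l = Ss P R := rfl
  rw [h5]
  field_simp

/-- the mean of the square -/
theorem cc_sum (hP : Her P) (R : ℕ) (hR : 1 ≤ R) (X : ℕ) (hX : R ^ 2 ≤ X) :
    ∑ e ∈ Icc 1 X, cc P R e / e = 1 / Ss P R := by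
  rw [← quad hP R hR, ← Finset.sum_product']
  have hmaps : ∀ z ∈ (Icc 1 R) ×ˢ (Icc 1 R), z.1.lcm z.2 ∈ Icc 1 X := by
    rintro ⟨a, b⟩ hz
    rw [Finset.mem_product, Finset.mem_Icc, Finset.mem_Icc] at hz
    obtain ⟨⟨ha1, ha2⟩, hb1, hb2⟩ := hz
    simp only at ha1 ha2 hb1 hb2
    rw [Finset.mem_Icc]
    refine ⟨Nat.lcm_pos (by omega) (by omega), le_trans ?_ hX⟩
    calc a.lcm b ≤ a * b := Nat.le_of_dvd (Nat.mul_pos (by omega) (by omega)) (Nat.lcm_dvd_mul a b)
      _ ≤ R * R := Nat.mul_le_mul ha2 hb2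
      _ = R ^ 2 := by ring
  rw [← Finset.sum_fiberwise_of_maps_to hmaps]
  refine Finset.sum_congr rfl fun e _ => ?_
  unfold cc
  rw [Finset.sum_div]
  refine Finset.sum_congr rfl fun z hz => ?_
  rw [Finset.mem_filter] at hz
  rw [hz.2]

/-- the coefficients of the square give the square -/
theorem cc_dv (R : ℕ) (n : ℕ) (hn : n ≠ 0) :
    ∑ m ∈ n.divisors, cc P R m = (∑ d ∈ (Icc 1 R).filter (fun d => d ∣ n), lam P R d) ^ 2 := by
  unfold cc
  rw [pow_two, Finset.sum_mul_sum, ← Finset.sum_product']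
  rw [Finset.sum_sigma', eq_comm]
  refine Finset.sum_bij (fun z _ => ⟨z.1.lcm z.2, z⟩) ?_ ?_ ?_ ?_
  · rintro ⟨a, b⟩ hz
    rw [mem_product, mem_filter, mem_filter] at hz
    rw [mem_sigma, mem_filter, mem_product, Nat.mem_divisors]
    exact ⟨⟨Nat.lcm_dvd hz.1.2 hz.2.2, hn⟩, ⟨hz.1.1, hz.2.1⟩, rfl⟩
  · intro z _ z' _ h
    simp only [Sigma.mk.injEq, heq_eq_eq] at h
    exact h.2
  · rintro ⟨m, a, b⟩ hz
    rw [mem_sigma, mem_filter, mem_product, Nat.mem_divisors] at hz
    obtain ⟨⟨hm, -⟩, ⟨h1, h2⟩, h3⟩ := hz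
    simp only at hm h1 h2 h3
    subst h3
    refine ⟨(a, b), ?_, rfl⟩
    rw [mem_product, mem_filter, mem_filter]
    exact ⟨⟨h1, (Nat.dvd_lcm_left a b).trans hm⟩, ⟨h2, (Nat.dvd_lcm_right a b).trans hm⟩⟩
  · intro z _
    rfl

/-- the support of the coefficients -/
theorem cc_supp (hP : Her P) (hlcm : ∀ a b : ℕ, P a → P b → P (a.lcm b)) (R e : ℕ)
    (h : cc P R e ≠ 0) : Squarefree e ∧ P e ∧ 1 ≤ e ∧ e ≤ R ^ 2 := by
  unfold cc at h
  obtain ⟨⟨a, b⟩, hz, hz0⟩ := Finset.exists_ne_zero_of_sum_ne_zero h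
  rw [mem_filter, mem_product, mem_Icc, mem_Icc] at hz
  obtain ⟨⟨⟨ha1, ha2⟩, hb1, hb2⟩, h3⟩ := hz
  simp only at ha1 ha2 hb1 hb2 h3 hz0
  have h4 := lam_supp hP R a (left_ne_zero_of_mul hz0)
  have h5 := lam_supp hP R b (right_ne_zero_of_mul hz0)
  have hpos : 0 < a.lcm b := Nat.lcm_pos (by omega) (by omega)
  refine ⟨?_, h3 ▸ hlcm a b h4.2.1 h5.2.1, by omega, ?_⟩
  · rw [← h3, Nat.squarefree_iff_factorization_le_one hpos.ne']
    intro p
    rw [Nat.factorization_lcm (by omega) (by omega)]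
    have e1 := (Nat.squarefree_iff_factorization_le_one (by omega)).1 h4.1 p
    have e2 := (Nat.squarefree_iff_factorization_le_one (by omega)).1 h5.1 p
    rw [Finsupp.sup_apply]
    exact max_le e1 e2
  · rw [← h3]
    calc a.lcm b ≤ a * b := Nat.le_of_dvd (Nat.mul_pos (by omega) (by omega)) (Nat.lcm_dvd_mul a b)
      _ ≤ R * R := Nat.mul_le_mul ha2 hb2
      _ = R ^ 2 := by ring

/-- the coefficients are bounded -/
theorem cc_abs (hP : Her P) (R e : ℕ) (hR : 1 ≤ R) :
    |cc P R e| ≤ ((e.divisors.card : ℕ) : ℝ) ^ 2 := by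
  unfold cc
  refine (Finset.abs_sum_le_sum_abs _ _).trans ?_
  by_cases he : e = 0
  · rw [he]
    rw [Finset.filter_false_of_mem]
    · simp
    · rintro ⟨a, b⟩ hz h
      rw [mem_product, mem_Icc, mem_Icc] at hz
      have := Nat.lcm_pos (m := a) (n := b) (Nat.lt_of_lt_of_le Nat.zero_lt_one hz.1.1)
        (Nat.lt_of_lt_of_le Nat.zero_lt_one hz.2.1)
      simp only at h
      omega
  have h1 : ∀ z ∈ ((Icc 1 R) ×ˢ (Icc 1 R)).filter (fun z => z.1.lcm z.2 = e),
      |lam P R z.1 * lam P R z.2| ≤ 1 := by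
    intro z _
    rw [abs_mul]
    exact mul_le_one₀ (lam_abs hP R _ hR) (abs_nonneg _) (lam_abs hP R _ hR)
  refine (Finset.sum_le_card_nsmul _ _ _ h1).trans ?_
  rw [nsmul_eq_mul, mul_one]
  have h2 : (((Icc 1 R) ×ˢ (Icc 1 R)).filter (fun z => z.1.lcm z.2 = e)).card ≤
      (e.divisors ×ˢ e.divisors).card := by
    apply Finset.card_le_card
    rintro ⟨a, b⟩ hz
    rw [mem_filter] at hz
    rw [mem_product, Nat.mem_divisors, Nat.mem_divisors]
    have h3 := hz.2
    simp only at h3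
    exact ⟨⟨h3 ▸ Nat.dvd_lcm_left a b, he⟩, ⟨h3 ▸ Nat.dvd_lcm_right a b, he⟩⟩
  rw [card_product] at h2
  calc ((((Icc 1 R) ×ˢ (Icc 1 R)).filter (fun z => z.1.lcm z.2 = e)).card : ℝ)
      ≤ ((e.divisors.card * e.divisors.card : ℕ) : ℝ) := by exact_mod_cast h2
    _ = _ := by push_cast; ring

end Pool.Agent.H1.SG
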