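import Pool.Agent.H1.SG.G
import Pool.Agent.H11.RG.Fin
import Pool.Agent.H92.MM.Lo

/-!
# [H1 SG WT4] The Selberg square satisfies the hypotheses of `loc_of_laws` with constant `1/4`
-/

set_option autoImplicit false

namespace Pool.Agent.H1.SG

open Finset Filter Pool.Agent.H11.RG Pool.Agent.H92.MM

theorem wts_G4 (ε : ℝ) (hε : 0 < ε) : ∃ η : ℝ, 0 < η ∧ η ≤ 1 / 2000000 ∧ ∀ a0 : ℝ, 0 < a0 →
    a0 ≤ 1 / 20 → ∃ (G : ℝ → ℕ → ℝ) (EG : ℝ → ℝ),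
      Wt η 10 a0 (1 / 100 * a0) (2 * Real.exp (3 / a0)) G EG ∧ Maj (1 / 4) ε a0 G EG := by
  obtain ⟨κ, hκ, hκ1, h⟩ := hG_div ε hε
  refine ⟨κ / 1000, by positivity, by linarith, fun a0 ha0 ha1 => ?_⟩
  obtain ⟨c, C, h1, h2, h3, h4, h5, h6, h7, h8⟩ := h a0 ha0 ha1
  refine ⟨dv c, dm c, ⟨?_, h3, h4, h5⟩, ⟨h6, ?_, ?_⟩⟩
  · exact pair_law_div κ 10 a0 κ C hκ hκ1 (by norm_num) ha0 ha1 le_rfl (by linarith) c h1 h2
  · filter_upwards [h7] with x hx n hn hn1 _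
    exact hx n hn hn1
  · filter_upwards [h8] with x hx
    linarith

end Pool.Agent.H1.SG
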